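import Mathlib
import Pool.Agent.Lib.helper26.MulTable

set_option autoImplicit false

open Filter Topology

namespace Pool.Agent.Results.MP_c34da8_nt.Full

/-- For every `f` tending to infinity there is a partition of the positive integers into two
classes whose monochromatic products with both factors above `f n` have lower density zero. -/
theorem result (f : ℕ → ℝ) (hf : Tendsto f atTop atTop) :
    ∃ A B : Set ℕ, Disjoint A B ∧ A ∪ B = Set.Ici 1 ∧
      liminf (fun M : ℕ => (({n : ℕ | ∃ a a' : ℕ, ((a ∈ A ∧ a' ∈ A) ∨ (a ∈ B ∧ a' ∈ B)) ∧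
        n = a * a' ∧ f n < ((min a a' : ℕ) : ℝ)} ∩ Set.Icc 1 M).ncard : ℝ) / (M : ℝ)) atTop = 0 := by
  classical
  have step : ∀ k t : ℕ, ∃ T n0 : ℕ, t ^ 2 + t + 1 ≤ T ∧ (∀ n, n0 ≤ n → (t : ℝ) ≤ f n) ∧
      n0 * (k + 1) ≤ T ∧
      ((((Finset.Icc 1 T) ×ˢ (Finset.Icc 1 T)).image fun p : ℕ × ℕ => p.1 * p.2).card : ℝ) ≤
        1 / ((k : ℝ) + 1) * (T : ℝ) ^ 2 := by
    intro k t
    obtain ⟨n0, hn0⟩ := eventually_atTop.mp (hf.eventually_ge_atTop (t : ℝ))
    obtain ⟨T0, hT0⟩ := Pool.Agent.Lib.helper26.MulTable.mul_table (1 / ((k : ℝ) + 1))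
      (by positivity)
    exact ⟨t ^ 2 + t + 1 + n0 * (k + 1) + T0, n0, by omega, hn0, by omega, hT0 _ (by omega)⟩
  choose F G h1 h2 h3 h4 using step
  let T : ℕ → ℕ := fun k => Nat.rec 0 F k
  have hT : ∀ k, T (k + 1) = F k (T k) := fun k => rfl
  have hlt : ∀ k, T k ^ 2 + T k + 1 ≤ T (k + 1) := fun k => h1 k (T k)
  have hsm : StrictMono T := strictMono_nat_of_lt_succ fun k => by
    have := hlt k
    omega
  set A : Set ℕ := {a | ∃ k, Even k ∧ T k < a ∧ a ≤ T (k + 1)} with hA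
  have hmem : ∀ k a, T k < a → a ≤ T (k + 1) → (a ∈ A ↔ Even k) := by
    intro k a ha1 ha2
    refine ⟨?_, fun h => ⟨k, h, ha1, ha2⟩⟩
    rintro ⟨j, hj, hj1, hj2⟩
    have a1 : j < k + 1 := hsm.lt_iff_lt.mp (hj1.trans_le ha2)
    have a2 : k < j + 1 := hsm.lt_iff_lt.mp (ha1.trans_le hj2)
    have : j = k := by omega
    exact this ▸ hj
  refine ⟨A, Set.Ici 1 \ A, Set.disjoint_sdiff_right, Set.union_sdiff_cancel ?_, ?_⟩
  · rintro a ⟨k, -, hk, -⟩
    show 1 ≤ a
    omega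
  set D := {n : ℕ | ∃ a a' : ℕ, ((a ∈ A ∧ a' ∈ A) ∨ (a ∈ Set.Ici 1 \ A ∧ a' ∈ Set.Ici 1 \ A)) ∧
    n = a * a' ∧ f n < ((min a a' : ℕ) : ℝ)} with hD
  have key : ∀ k, ((D ∩ Set.Icc 1 (T (k + 1) ^ 2)).ncard : ℝ) / ((T (k + 1) ^ 2 : ℕ) : ℝ) ≤
      2 * (1 / ((k : ℝ) + 1)) := by
    intro k
    have hsub : D ∩ Set.Icc 1 (T (k + 1) ^ 2) ⊆ ↑(Finset.range (G k (T k)) ∪
        ((Finset.Icc 1 (T (k + 1))) ×ˢ (Finset.Icc 1 (T (k + 1)))).image
          fun p : ℕ × ℕ => p.1 * p.2) := by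
      rintro n ⟨⟨a, a', hc, rfl, hm⟩, -, hn⟩
      rw [Finset.mem_coe, Finset.mem_union, Finset.mem_range]
      by_cases h0 : a * a' < G k (T k)
      · exact Or.inl h0
      right
      have b1 : T k < min a a' := by exact_mod_cast (h2 k (T k) _ (not_lt.mp h0)).trans_lt hm
      have b2 : T k < a := b1.trans_le (min_le_left _ _)
      have b3 : T k < a' := b1.trans_le (min_le_right _ _)
      have b4 := hlt (k + 1)
      have b5 : a ≤ a * a' := Nat.le_mul_of_pos_right _ (by omega)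
      have b6 : a' ≤ a * a' := Nat.le_mul_of_pos_left _ (by omega)
      have hiff : a ∈ A ↔ a' ∈ A := by
        rcases hc with ⟨c1, c2⟩ | ⟨c1, c2⟩
        · exact iff_of_true c1 c2
        · exact iff_of_false c1.2 c2.2
      by_cases c1 : a ≤ T (k + 1) <;> by_cases c2 : a' ≤ T (k + 1)
      · exact Finset.mem_image.mpr ⟨(a, a'), Finset.mem_product.mpr
          ⟨Finset.mem_Icc.mpr ⟨by omega, c1⟩, Finset.mem_Icc.mpr ⟨by omega, c2⟩⟩, rfl⟩
      · rw [hmem k a b2 c1, hmem (k + 1) a' (by omega) (by omega), Nat.even_add_one] at hiff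
        exact absurd hiff iff_not_self
      · rw [hmem k a' b3 c2, hmem (k + 1) a (by omega) (by omega), Nat.even_add_one] at hiff
        exact absurd hiff.symm iff_not_self
      · exfalso
        have : T (k + 1) * T (k + 1) < a * a' :=
          Nat.mul_lt_mul'' (not_le.mp c1) (not_le.mp c2)
        rw [sq] at hn
        omega
    have c1 := Set.ncard_le_ncard hsub (Finset.finite_toSet _)
    rw [Set.ncard_coe_finset] at c1
    have c2 := c1.trans (Finset.card_union_le _ _)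
    rw [Finset.card_range] at c2
    have c3 := h4 k (T k)
    have c4 := h3 k (T k)
    rw [← hT] at c3 c4
    have c5 : (1 : ℝ) ≤ T (k + 1) := by
      have := hlt k
      exact_mod_cast (by omega : 1 ≤ T (k + 1))
    have c6 : (G k (T k) : ℝ) ≤ 1 / ((k : ℝ) + 1) * (T (k + 1) : ℝ) ^ 2 := by
      rw [one_div, ← div_eq_inv_mul, le_div_iff₀ (by positivity)]
      have c7 : (G k (T k) : ℝ) * (k + 1) ≤ T (k + 1) := by exact_mod_cast c4
      nlinarith
    have c7 : ((D ∩ Set.Icc 1 (T (k + 1) ^ 2)).ncard : ℝ) ≤ G k (T k) +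
        (((Finset.Icc 1 (T (k + 1))) ×ˢ (Finset.Icc 1 (T (k + 1)))).image
          fun p : ℕ × ℕ => p.1 * p.2).card := by exact_mod_cast c2
    push_cast
    rw [div_le_iff₀ (by positivity)]
    linarith
  have hbd : IsBoundedUnder (· ≥ ·) atTop
      fun M : ℕ => ((D ∩ Set.Icc 1 M).ncard : ℝ) / (M : ℝ) :=
    isBoundedUnder_of ⟨0, fun M => by positivity⟩
  refine le_antisymm (le_of_forall_pos_le_add fun ε hε => ?_) ?_
  · rw [zero_add]
    refine liminf_le_of_frequently_le ?_ hbd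
    rw [frequently_atTop]
    intro M
    obtain ⟨m, hm⟩ := exists_nat_one_div_lt (half_pos hε)
    refine ⟨T (M + m + 1) ^ 2, ?_, (key (M + m)).trans ?_⟩
    · have := hsm.id_le (M + m + 1)
      simp only [id] at this
      nlinarith
    · have : 1 / (((M + m : ℕ) : ℝ) + 1) ≤ 1 / ((m : ℝ) + 1) := by
        refine one_div_le_one_div_of_le (by positivity) ?_
        push_cast
        have : (0 : ℝ) ≤ M := Nat.cast_nonneg _
        linarith
      linarith
  · refine le_liminf_of_le (isCoboundedUnder_ge_of_le (x := 1) _ fun M => ?_)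
      (Eventually.of_forall fun M => by positivity)
    refine div_le_one_of_le₀ ?_ (Nat.cast_nonneg _)
    have := Set.ncard_le_ncard (Set.inter_subset_right (s := D) (t := Set.Icc 1 M))
      (Set.finite_Icc _ _)
    rw [Set.ncard_Icc_nat] at this
    exact_mod_cast this

end Pool.Agent.Results.MP_c34da8_nt.Full
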